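import Mathlib
import Pool.Agent.H40.Gaps.Asym

set_option autoImplicit false

namespace Pool.Agent.Results.MP_fa7001_co.HighGaps

open Pool.Agent.H43.Gaps

/-- Let `m ≥ 3`. First part: for every real `c` with `0 ≤ c < 2` there is an `N` (independent of
`m`) such that for all `n ≥ N` every integer `k` with `1 ≤ k ≤ c ^ n` belongs to `R_j(m, n)`.
Second part: for all `n ≥ 2`, if `r` belongs to `R_j(m, n)`, then so does every `k` with
`1 ≤ k ≤ r` and `(n - 1) (k - 1) ≤ r`; so every gap of `R_j(m, n)` lies above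
`max R_j(m, n) / (n - 1)`. -/
theorem result :
    (∀ c : ℝ, 0 ≤ c → c < 2 → ∃ N : ℕ, ∀ n, N ≤ n → ∀ m, 3 ≤ m → ∀ (j : Fin n) (k : ℕ),
      1 ≤ k → (k : ℝ) ≤ c ^ n → k ∈ R m n j) ∧
    ∀ m n : ℕ, 3 ≤ m → 2 ≤ n → ∀ (j : Fin n) (r : ℕ), r ∈ R m n j → ∀ k : ℕ, 1 ≤ k → k ≤ r →
      (n - 1) * (k - 1) ≤ r → k ∈ R m n j :=
  ⟨fun _ h0 h2 => Pool.Agent.H40.Gaps.growth h0 h2,
    fun _ _ hm hn j _ hr _ hk1 hkr hk => Pool.Agent.H40.Gaps.mem_R_low hm hn j hr hk1 hkr hk⟩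

end Pool.Agent.Results.MP_fa7001_co.HighGaps
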