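import Mathlib
import Pool.Agent.H43.Gaps.Defs

set_option autoImplicit false

namespace Pool.Agent.Results.MP_fa7001_co.HighOrder

open Pool.Agent.H43.Gaps

/-- If the order is at least the dimension, `R_j(m, n)` has no gap. -/
theorem result (m n : ℕ) (hm : 2 ≤ m) (hn : 2 ≤ n) (hnm : n ≤ m) (j : Fin n) :
    ¬ HasGap m n j := by
  have := hn
  exact no_gap_of_le hm hnm j

end Pool.Agent.Results.MP_fa7001_co.HighOrder
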