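import Mathlib
import Pool.Agent.H43.Gaps.Anti

set_option autoImplicit false

namespace Pool.Agent.Results.MP_fa7001_co.InitialSegment

open Pool.Agent.H43.Gaps

/-- For order `m ≥ 3`, every integer `k ≥ 1` which is at most `(n - 1)²`, or at most
`4 ^ ⌊(n - 1) / 5⌋`, or at most `C(n - 1, t) + 1` for some `2 ≤ t ≤ m - 1`, belongs to
`R_j(m, n)`; so every gap of `R_j(m, n)` lies above all of these numbers. -/
theorem result (m n : ℕ) (hm : 3 ≤ m) (hn : 2 ≤ n) (j : Fin n) (k : ℕ) (hk1 : 1 ≤ k)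
    (hk : k ≤ (n - 1) ^ 2 ∨ k ≤ 4 ^ ((n - 1) / 5) ∨
      ∃ t, 2 ≤ t ∧ t ≤ m - 1 ∧ k ≤ (n - 1).choose t + 1) : k ∈ R m n j :=
  mem_R_initial hm hn j hk1 hk

end Pool.Agent.Results.MP_fa7001_co.InitialSegment
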