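import Mathlib
import Pool.Agent.H43.Gaps.Two

set_option autoImplicit false

namespace Pool.Agent.Results.MP_fa7001_co.OrderTwo

open Pool.Agent.H43.Gaps

/-- Order `m = 2`. For `n ≥ 3` the set `R_j(2, n)` consists of all `k` with
`1 ≤ k ≤ n² - 4n + 6`, except that for odd `n` the integers `k` with
`n² - 6n + 13 ≤ k ≤ n² - 5n + 5` are missing; consequently `R_j(2, n)` has a gap if and only if
`n` is odd and `n ≥ 9`. -/
theorem result :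
    (∀ n : ℕ, 3 ≤ n → ∀ j : Fin n, R 2 n j =
      {k : ℕ | 1 ≤ k ∧ (k : ℤ) ≤ (n : ℤ) ^ 2 - 4 * n + 6 ∧
        ¬ (Odd n ∧ (n : ℤ) ^ 2 - 6 * n + 13 ≤ k ∧ (k : ℤ) ≤ (n : ℤ) ^ 2 - 5 * n + 5)}) ∧
    (∀ n : ℕ, 2 ≤ n → ∀ j : Fin n, HasGap 2 n j ↔ Odd n ∧ 9 ≤ n) := by
  refine ⟨?_, fun n hn j => hasGap_two_iff hn j⟩
  intro n hn j
  obtain ⟨N, rfl⟩ : ∃ N, n = N + 3 := ⟨n - 3, by omega⟩
  rw [R_two]
  ext k
  simp only [Set.mem_ofPred_eq]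
  have hodd : Odd (N + 3) ↔ Even N := by
    constructor
    · rintro ⟨r, hr⟩; exact ⟨r - 1, by omega⟩
    · rintro ⟨r, hr⟩; exact ⟨r + 1, by omega⟩
  rw [hodd]
  push_cast
  have e1 : ((N : ℤ) + 3) ^ 2 - 4 * (N + 3) + 6 = (N + 1) * (N + 1) + 2 := by ring
  have e2 : ((N : ℤ) + 3) ^ 2 - 6 * (N + 3) + 13 = N * N + 4 := by ring
  have e3 : ((N : ℤ) + 3) ^ 2 - 5 * (N + 3) + 5 = N * (N + 1) - 1 := by ring
  rw [e1, e2, e3]
  constructor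
  · rintro ⟨h1, h2, h3⟩
    refine ⟨h1, by exact_mod_cast h2, ?_⟩
    rintro ⟨h4, h5, h6⟩
    apply h3
    refine ⟨h4, by exact_mod_cast h5, ?_⟩
    have : (k : ℤ) < N * (N + 1) := by linarith
    exact_mod_cast this
  · rintro ⟨h1, h2, h3⟩
    refine ⟨h1, by exact_mod_cast h2, ?_⟩
    rintro ⟨h4, h5, h6⟩
    apply h3
    refine ⟨h4, by exact_mod_cast h5, ?_⟩
    have : (k : ℤ) < N * (N + 1) := by exact_mod_cast h6
    linarith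

end Pool.Agent.Results.MP_fa7001_co.OrderTwo
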